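import Pool.Agent.Y922.AP.Stm

/-!
# Project AP of helper922 (by helper302): a generic point, lifts of outward rays, condensation
-/

set_option autoImplicit false

open Filter Topology Set

namespace Pool.Agent.Y302.AP

open Pool.Agent.Y922.AP

/-- an uncountable subset of a second countable space contains one of its accumulation points -/
theorem exists_acc {Y : Type*} [TopologicalSpace Y] [SecondCountableTopology Y] {S : Set Y}
    (h : ¬ S.Countable) : ∃ p ∈ S, AccPt p (𝓟 S) := by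
  by_contra hcon
  push Not at hcon
  apply h
  have hd : DiscreteTopology S := by
    rw [discreteTopology_subtype_iff]
    intro x hx
    have := hcon x hx
    unfold AccPt at this
    exact Filter.not_neBot.mp this
  have : Countable S := TopologicalSpace.separableSpace_iff_countable.mp inferInstance
  exact Set.countable_coe_iff.mp this

/-- the zero set of an analytic function is countable -/
theorem zeros_countable {f : ℂ → ℂ} {U : Set ℂ} (hf : AnalyticOnNhd ℂ f U) (hU : IsPreconnected U)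
    (h0 : ¬ EqOn f 0 U) : {z | z ∈ U ∧ f z = 0}.Countable := by
  by_contra h
  obtain ⟨p, hp, hacc⟩ := exists_acc h
  rw [accPt_iff_frequently_nhdsNE] at hacc
  exact h0 (hf.eqOn_zero_of_preconnected_of_frequently_eq_zero hU hp.1
    (hacc.mono fun z hz => hz.2))

/-- local inverse of an analytic function -/
theorem local_inv {X : ℂ → ℂ} (hX : Differentiable ℂ X) {z : ℂ} (hz : deriv X z ≠ 0) :
    ∃ g : ℂ → ℂ, AnalyticAt ℂ g (X z) ∧ g (X z) = z ∧ (∀ᶠ a in 𝓝 (X z), X (g a) = a) ∧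
      ∀ᶠ w in 𝓝 z, g (X w) = w := by
  have hXa : AnalyticAt ℂ X z := hX.analyticAt z
  exact ⟨hXa.hasStrictDerivAt.localInverse _ _ _ hz, hXa.analyticAt_localInverse hz,
    HasStrictFDerivAt.localInverse_apply_image .., HasStrictDerivAt.eventually_right_inverse ..,
    HasStrictDerivAt.eventually_left_inverse ..⟩

theorem t_GEN : S_GEN := by
  intro K hK ι hι R g hg
  have hH : IsOpen {W : ℂ | R < W.re} := isOpen_lt continuous_const Complex.continuous_re
  have hHc : IsPreconnected {W : ℂ | R < W.re} := (convex_halfSpace_re_gt R).isPreconnected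
  have hcount : Countable (MvPolynomial ι K) := by
    apply Function.Injective.countable
      (f := fun P : MvPolynomial ι K => (⟨P.support, fun m => P.coeff m.1⟩ :
        Σ s : Finset (ι →₀ ℕ), (s → K)))
    intro P Q hPQ
    have h1 : P.support = Q.support := congrArg Sigma.fst hPQ
    refine MvPolynomial.ext P Q fun m => ?_
    by_cases hm : m ∈ P.support
    · have h2 := (Sigma.mk.inj_iff.mp hPQ).2
      have h3 : ∀ (s t : Finset (ι →₀ ℕ)) (hst : s = t) (u : s → K) (v : t → K) (_ : HEq u v)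
          (m : ι →₀ ℕ) (hm : m ∈ s), u ⟨m, hm⟩ = v ⟨m, hst ▸ hm⟩ := by
        intro s t hst u v huv m hm
        subst hst
        rw [eq_of_heq huv]
      exact h3 _ _ h1 _ _ h2 m hm
    · rw [MvPolynomial.notMem_support_iff.mp hm]
      rw [h1] at hm
      rw [MvPolynomial.notMem_support_iff.mp hm]
  have han : ∀ P : MvPolynomial ι K, AnalyticOnNhd ℂ
      (fun W => MvPolynomial.aeval (fun k => g k W) P) {W : ℂ | R < W.re} := fun P W hW =>
    AnalyticAt.aeval_mvPolynomial (fun k => hg k W hW) P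
  obtain ⟨C, hC⟩ : ∃ C : Set ℂ, C = ⋃ P : MvPolynomial ι K, {W | (W ∈ {W : ℂ | R < W.re} ∧
    MvPolynomial.aeval (fun k => g k W) P = 0) ∧
    ¬ EqOn (fun W => MvPolynomial.aeval (fun k => g k W) P) 0 {W : ℂ | R < W.re}} := ⟨_, rfl⟩
  have hCc : C.Countable := by
    rw [hC]
    apply Set.countable_iUnion
    intro P
    by_cases h : EqOn (fun W => MvPolynomial.aeval (fun k => g k W) P) 0 {W : ℂ | R < W.re}
    · have : {W | (W ∈ {W : ℂ | R < W.re} ∧ MvPolynomial.aeval (fun k => g k W) P = 0) ∧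
          ¬ EqOn (fun W => MvPolynomial.aeval (fun k => g k W) P) 0 {W : ℂ | R < W.re}} = ∅ := by
        ext W
        simp only [Set.mem_ofPred_eq, Set.mem_empty_iff_false, iff_false, not_and, not_not]
        intro _
        exact h
      rw [this]
      exact Set.countable_empty
    · refine (zeros_countable (han P) hHc h).mono ?_
      intro W hW
      exact hW.1
  have hdense := hCc.dense_compl ℂ
  obtain ⟨W₀, hW₀H, hW₀C⟩ := hdense.inter_open_nonempty _ hH ⟨((R + 1 : ℝ) : ℂ), by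
    show R < ((R + 1 : ℝ) : ℂ).re
    rw [Complex.ofReal_re]
    linarith⟩
  refine ⟨W₀, hW₀H, ?_⟩
  intro P hP W hW
  by_contra hcon
  apply hW₀C
  rw [hC, Set.mem_iUnion]
  refine ⟨P, ⟨hW₀H, hP⟩, ?_⟩
  intro h
  exact hcon (h hW)

theorem t_INF : S_INF := by
  intro X R G hX hE w₀ x₀ σ hσ
  obtain ⟨hσa, hσe⟩ := hσ
  have hW : ∀ x : ℝ, x₀ < x → R < x + w₀.re →
      ∃ k : ℤ, σ x = G ((x : ℂ) + w₀ + 2 * Real.pi * Complex.I * k) := by
    intro x hx hxR
    have h1 : Real.exp R < ‖X (σ x)‖ := by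
      rw [hσe x hx, Complex.norm_exp]
      apply Real.exp_lt_exp.mpr
      simpa using hxR
    obtain ⟨W, hWR, hWe⟩ := hE.surj _ h1
    have h2 : Complex.exp W = Complex.exp ((x : ℂ) + w₀) := by
      rw [← hE.eq W hWR, hWe, hσe x hx]
    obtain ⟨k, hk⟩ := Complex.exp_eq_exp_iff_exists_int.mp h2
    refine ⟨k, ?_⟩
    rw [← hWe, hk]
    congr 1
    ring
  obtain ⟨J, hJ⟩ : ∃ J : Set ℝ, J = Ioi (max x₀ (R - w₀.re)) := ⟨_, rfl⟩
  have hJm : ∀ x, x ∈ J ↔ x₀ < x ∧ R < x + w₀.re := by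
    intro x
    rw [hJ, Set.mem_Ioi, max_lt_iff]
    constructor
    · rintro ⟨h1, h2⟩; exact ⟨h1, by linarith⟩
    · rintro ⟨h1, h2⟩; exact ⟨h1, by linarith⟩
  obtain ⟨x₁, hx₁⟩ : J.Nonempty := by rw [hJ]; exact Set.nonempty_Ioi
  obtain ⟨k, hk⟩ := hW x₁ ((hJm x₁).mp hx₁).1 ((hJm x₁).mp hx₁).2
  refine ⟨k, ?_⟩
  obtain ⟨τ, hτ⟩ : ∃ τ : ℝ → ℂ, τ = fun x : ℝ => G ((x : ℂ) + w₀ + 2 * Real.pi * Complex.I * k) :=
    ⟨_, rfl⟩
  have hre : ∀ x : ℝ, ((x : ℂ) + w₀ + 2 * Real.pi * Complex.I * k).re = x + w₀.re := by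
    intro x
    simp
  have hτa : AnalyticOnNhd ℝ τ J := by
    intro x hx
    rw [hτ]
    have h1 : AnalyticAt ℂ G ((x : ℂ) + w₀ + 2 * Real.pi * Complex.I * k) := by
      apply hE.an
      rw [hre]
      exact ((hJm x).mp hx).2
    have h2 : AnalyticAt ℝ (fun x : ℝ => (x : ℂ) + w₀ + 2 * Real.pi * Complex.I * k) x := by
      apply AnalyticAt.add _ analyticAt_const
      apply AnalyticAt.add _ analyticAt_const
      exact Complex.ofRealCLM.analyticAt x
    exact AnalyticAt.comp (g := G) (f := fun x : ℝ => (x : ℂ) + w₀ + 2 * Real.pi * Complex.I * k)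
      h1.restrictScalars h2
  have hσJ : AnalyticOnNhd ℝ σ J := fun x hx => hσa x ((hJm x).mp hx).1
  have hloc : σ =ᶠ[𝓝 x₁] τ := by
    have hWR : R < ((x₁ : ℂ) + w₀ + 2 * Real.pi * Complex.I * k).re := by
      rw [hre]
      exact ((hJm x₁).mp hx₁).2
    have hder : deriv X (σ x₁) ≠ 0 := by
      intro h0
      have h1 : HasDerivAt G (deriv G ((x₁ : ℂ) + w₀ + 2 * Real.pi * Complex.I * k))
          ((x₁ : ℂ) + w₀ + 2 * Real.pi * Complex.I * k) :=
        (hE.an _ hWR).differentiableAt.hasDerivAt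
      have h2 : HasDerivAt X 0 (G ((x₁ : ℂ) + w₀ + 2 * Real.pi * Complex.I * k)) := by
        rw [← hk, ← h0]
        exact (hX _).hasDerivAt
      have h3 := h2.comp _ h1
      have h4 : (X ∘ G) =ᶠ[𝓝 ((x₁ : ℂ) + w₀ + 2 * Real.pi * Complex.I * k)] Complex.exp := by
        have hH : {W : ℂ | R < W.re} ∈ 𝓝 ((x₁ : ℂ) + w₀ + 2 * Real.pi * Complex.I * k) :=
          (isOpen_lt continuous_const Complex.continuous_re).mem_nhds hWR
        filter_upwards [hH] with W hW
        exact hE.eq W hW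
      have h5 := (h3.congr_of_eventuallyEq h4.symm).unique
        (Complex.hasDerivAt_exp ((x₁ : ℂ) + w₀ + 2 * Real.pi * Complex.I * k))
      rw [zero_mul] at h5
      exact Complex.exp_ne_zero _ h5.symm
    obtain ⟨g, _, _, _, hg⟩ := local_inv hX hder
    have h1 : ∀ᶠ x in 𝓝 x₁, g (X (σ x)) = σ x :=
      (hσJ x₁ hx₁).continuousAt.eventually hg
    have hτ1 : τ x₁ = σ x₁ := by rw [hτ, hk]
    have h2 : ∀ᶠ x in 𝓝 x₁, g (X (τ x)) = τ x := by
      have h3 : Tendsto τ (𝓝 x₁) (𝓝 (σ x₁)) := by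
        rw [← hτ1]
        exact (hτa x₁ hx₁).continuousAt
      exact h3.eventually hg
    have h3 : ∀ᶠ x in 𝓝 x₁, x ∈ J := by
      rw [hJ]
      exact isOpen_Ioi.mem_nhds (by rw [hJ] at hx₁; exact hx₁)
    filter_upwards [h1, h2, h3] with x hx1 hx2 hx3
    have h4 : X (τ x) = X (σ x) := by
      rw [hσe x ((hJm x).mp hx3).1, hτ]
      show X (G ((x : ℂ) + w₀ + 2 * Real.pi * Complex.I * k)) = _
      rw [hE.eq _ (by rw [hre]; exact ((hJm x).mp hx3).2)]
      rw [Complex.exp_eq_exp_iff_exists_int]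
      exact ⟨k, by ring⟩
    rw [← hx1, ← hx2, h4]
  have hJc : IsPreconnected J := by rw [hJ]; exact isPreconnected_Ioi
  have hall := hσJ.eqOn_of_preconnected_of_eventuallyEq hτa hJc hx₁ hloc
  intro x hx hxR
  have := hall ((hJm x).mpr ⟨hx, hxR⟩)
  rw [this, hτ]

theorem t_COND : S_COND := by
  intro X hX hne K n P hT
  obtain ⟨T, hTd⟩ : ∃ T : Set ℂ, T = {a : ℂ | ∃ y : Fin n → ℂ, Function.Injective y ∧
    (∀ i, X (y i) = a) ∧ MvPolynomial.aeval (fun o : Option (Fin n) => o.elim a y) P = 0} :=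
    ⟨_, rfl⟩
  rw [← hTd] at hT
  have hX' : AnalyticOnNhd ℂ (deriv X) univ := fun z _ => (hX.analyticAt z).deriv
  have hcrit : {z | z ∈ (univ : Set ℂ) ∧ deriv X z = 0}.Countable := by
    apply zeros_countable hX' isPreconnected_univ
    intro h
    obtain ⟨y, hy⟩ := hne
    exact hy (h (mem_univ y))
  obtain ⟨CV, hCV⟩ : ∃ CV : Set ℂ, CV = X '' {z | z ∈ (univ : Set ℂ) ∧ deriv X z = 0} := ⟨_, rfl⟩
  have hCVc : CV.Countable := by rw [hCV]; exact hcrit.image X
  have hT' : ¬ (T \ CV).Countable := by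
    intro h
    apply hT
    refine (h.union hCVc).mono ?_
    intro a ha
    by_cases h' : a ∈ CV
    · exact Or.inr h'
    · exact Or.inl ⟨ha, h'⟩
  have hy : ∀ a ∈ T, ∃ y : Fin n → ℂ, Function.Injective y ∧ (∀ i, X (y i) = a) ∧
      MvPolynomial.aeval (fun o : Option (Fin n) => o.elim a y) P = 0 := by
    intro a ha
    rw [hTd] at ha
    exact ha
  choose! y hy1 hy2 hy3 using hy
  obtain ⟨S, hS⟩ : ∃ S : Set (ℂ × (Fin n → ℂ)), S = (fun a => (a, y a)) '' (T \ CV) := ⟨_, rfl⟩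
  have hSc : ¬ S.Countable := by
    intro h
    apply hT'
    have h1 : T \ CV ⊆ Prod.fst '' S := by
      intro a ha
      rw [hS]
      exact ⟨(a, y a), ⟨a, ha, rfl⟩, rfl⟩
    exact (h.image _).mono h1
  obtain ⟨p, hpS, hacc⟩ := exists_acc hSc
  rw [accPt_iff_frequently_nhdsNE] at hacc
  have hpS' := hpS
  rw [hS] at hpS'
  obtain ⟨a₀, ha₀, rfl⟩ := hpS'
  have hder : ∀ i, deriv X (y a₀ i) ≠ 0 := by
    intro i h
    apply ha₀.2
    rw [hCV]
    exact ⟨y a₀ i, ⟨mem_univ _, h⟩, hy2 a₀ ha₀.1 i⟩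
  have hinv := fun i => local_inv hX (hder i)
  choose g hg1 hg2 hg3 hg4 using hinv
  have hXy : ∀ i, X (y a₀ i) = a₀ := hy2 a₀ ha₀.1
  simp only [hXy] at hg1 hg2 hg3
  obtain ⟨F, hF⟩ : ∃ F : ℂ → ℂ, F = fun a =>
    MvPolynomial.aeval (fun o : Option (Fin n) => o.elim a fun i => g i a) P := ⟨_, rfl⟩
  have hFa : AnalyticAt ℂ F a₀ := by
    rw [hF]
    apply AnalyticAt.aeval_mvPolynomial
    intro o
    cases o with
    | none => exact analyticAt_id
    | some i => exact hg1 i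
  have hfreq : ∃ᶠ a in 𝓝[≠] a₀, F a = 0 := by
    intro hev
    rw [eventually_nhdsWithin_iff] at hev
    have e1 : ∀ᶠ q : ℂ × (Fin n → ℂ) in 𝓝 (a₀, y a₀), q.1 ∈ ({a₀}ᶜ : Set ℂ) → ¬ F q.1 = 0 :=
      (continuous_fst.tendsto (a₀, y a₀)).eventually hev
    have e2 : ∀ᶠ q : ℂ × (Fin n → ℂ) in 𝓝 (a₀, y a₀), ∀ i, g i (X (q.2 i)) = q.2 i := by
      rw [Filter.eventually_all]
      intro i
      have h1 : Tendsto (fun q : ℂ × (Fin n → ℂ) => q.2 i) (𝓝 (a₀, y a₀)) (𝓝 (y a₀ i)) :=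
        ((continuous_apply i).comp continuous_snd).tendsto (a₀, y a₀)
      exact h1.eventually (hg4 i)
    have hacc' := frequently_nhdsWithin_iff.mp hacc
    obtain ⟨q, ⟨hqS, hqne⟩, hq1, hq2⟩ := (hacc'.and_eventually (e1.and e2)).exists
    rw [hS] at hqS
    obtain ⟨a, ha, rfl⟩ := hqS
    have hane : a ≠ a₀ := by
      rintro rfl
      exact hqne rfl
    apply hq1 hane
    rw [hF]
    have h3 : ∀ i, g i a = y a i := by
      intro i
      have := hq2 i
      simp only at this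
      rwa [hy2 a ha.1 i] at this
    show MvPolynomial.aeval (fun o : Option (Fin n) => o.elim a fun i => g i a) P = 0
    simp only [h3]
    exact hy3 a ha.1
  have hF0 : ∀ᶠ a in 𝓝 a₀, F a = 0 := hFa.frequently_zero_iff_eventually_zero.mp hfreq
  have h1 : ∀ᶠ a in 𝓝 a₀, ∀ i, AnalyticAt ℂ (g i) a ∧ X (g i a) = a := by
    rw [Filter.eventually_all]
    intro i
    exact (hg1 i).eventually_analyticAt.and (hg3 i)
  have h2 : ∀ᶠ a in 𝓝 a₀, ∀ i j, i ≠ j → g i a ≠ g j a := by
    rw [Filter.eventually_all]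
    intro i
    rw [Filter.eventually_all]
    intro j
    by_cases hij : i = j
    · exact Eventually.of_forall fun a h => absurd hij h
    · have hne' : g i a₀ ≠ g j a₀ := by
        rw [hg2, hg2]
        exact fun h => hij (hy1 a₀ ha₀.1 h)
      have := ((hg1 i).continuousAt.sub (hg1 j).continuousAt).eventually_ne
        (sub_ne_zero.mpr hne')
      exact this.mono fun a ha _ h => ha (sub_eq_zero.mpr h)
  obtain ⟨δ, hδ, hball⟩ := Metric.eventually_nhds_iff_ball.mp ((hF0.and h1).and h2)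
  refine ⟨a₀, δ, g, hδ, ?_, ?_, ?_⟩
  · intro i a ha
    exact (hball a ha).1.2 i
  · intro a ha i j hij
    by_contra hne'
    exact (hball a ha).2 i j hne' hij
  · intro a ha
    have := (hball a ha).1.1
    rw [hF] at this
    exact this

end Pool.Agent.Y302.AP
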